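import Pool.Agent.H19.SYA.TA
import Pool.Agent.H19.SYA.TB

/-!
Symplectic torus actions on affine four-space (MP_51eb24_ag): the element `E`.
-/

set_option autoImplicit false

namespace Pool.Agent.H51.SYA

open MvPolynomial Pool.Agent.H2.ST Pool.Agent.H15.TG Pool.Agent.H19.SYA

section poly

variable {k : Type} [Field k] [CharZero k]

lemma exp_zero (Q : MvPolynomial (Fin 3) k) (i : Fin 3) (h : pderiv i Q = 0)
    (d : Fin 3 →₀ ℕ) (hd : coeff d Q ≠ 0) : d i = 0 := by
  by_contra hn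
  have h1 := congrArg (coeff (d - Finsupp.single i 1)) h
  rw [coeff_pderiv, coeff_zero] at h1
  have h2 : d - Finsupp.single i 1 + Finsupp.single i 1 = d := by
    apply tsub_add_cancel_of_le
    rw [Finsupp.single_le_iff]
    omega
  rw [h2] at h1
  rcases mul_eq_zero.1 h1 with h3 | h3
  · exact hd h3
  · have h4 : (((((d - Finsupp.single i 1 : Fin 3 →₀ ℕ) i) + 1 : ℕ)) : k) = 0 := by
      push_cast; exact h3
    exact absurd (Nat.cast_eq_zero.1 h4) (by omega)

lemma core_poly (P : MvPolynomial (Fin 3) k) (a : k) (M w : ℕ) (α : ℤ) (hw : 0 < w)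
    (h2 : pderiv 2 P = 0) (h1 : pderiv 1 P = C a * X 0 ^ M)
    (hh : IsWeightedHomogeneous ![(w : ℤ), 0, -α] P ((w : ℤ) * M)) :
    ∃ κ : k, P = C a * X 0 ^ M * X 1 + C κ * X 0 ^ M := by
  classical
  set Q : MvPolynomial (Fin 3) k := P - C a * X 0 ^ M * X 1 with hQ
  have e1 : pderiv 1 Q = 0 := by
    rw [hQ, map_sub, h1, Derivation.leibniz, Derivation.leibniz, Derivation.leibniz_pow,
      pderiv_C, pderiv_X_self, pderiv_X_of_ne (by decide)]
    simp
  have e2 : pderiv 2 Q = 0 := by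
    rw [hQ, map_sub, h2, Derivation.leibniz, Derivation.leibniz, Derivation.leibniz_pow,
      pderiv_C, pderiv_X_of_ne (by decide), pderiv_X_of_ne (by decide)]
    simp
  have key : ∀ d : Fin 3 →₀ ℕ, coeff d Q ≠ 0 → d = Finsupp.single 0 M := by
    intro d hd
    have d1 := exp_zero Q 1 e1 d hd
    have d2 := exp_zero Q 2 e2 d hd
    have hmon : coeff d (C a * X 0 ^ M * X 1 : MvPolynomial (Fin 3) k) = 0 := by
      have hm1 : (C a * X 0 ^ M * X 1 : MvPolynomial (Fin 3) k) =
          monomial (Finsupp.single 0 M + Finsupp.single 1 1) a := by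
        rw [C_mul_X_pow_eq_monomial,
          show (X 1 : MvPolynomial (Fin 3) k) = monomial (Finsupp.single 1 1) 1 from rfl,
          monomial_mul, mul_one]
      rw [hm1, coeff_monomial, if_neg]
      intro h3
      have h4 := DFunLike.congr_fun h3 1
      rw [d1] at h4
      simp at h4
    have hP : coeff d P ≠ 0 := by
      intro h3
      apply hd
      rw [hQ, coeff_sub, h3, hmon, sub_zero]
    have hwt := hh hP
    rw [Finsupp.weight_apply, Finsupp.sum_fintype _ _ (fun i => by simp)] at hwt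
    rw [Fin.sum_univ_three, d1, d2] at hwt
    simp only [Matrix.cons_val_zero, nsmul_eq_mul, zero_smul, add_zero] at hwt
    have h0 : d 0 = M := by
      have hw' : (w : ℤ) ≠ 0 := by exact_mod_cast hw.ne'
      have h5 : (w : ℤ) * (d 0 : ℤ) = (w : ℤ) * M := by linarith
      exact_mod_cast mul_left_cancel₀ hw' h5
    ext i
    fin_cases i
    · simpa using h0
    · simpa using d1
    · simpa using d2
  refine ⟨coeff (Finsupp.single 0 M) Q, ?_⟩
  have hQ2 : Q = C (coeff (Finsupp.single 0 M) Q) * X 0 ^ M := by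
    rw [C_mul_X_pow_eq_monomial]
    ext d
    rw [coeff_monomial]
    by_cases hd : coeff d Q = 0
    · split_ifs with h3
      · rw [h3]
      · exact hd
    · rw [if_pos (key d hd).symm, key d hd]
  rw [← hQ2, hQ]
  ring

end poly

section hom

variable {k : Type} [Field k]

lemma hom_of_mul {W : ℤ → Submodule k (Pol k 2)} (h : Gr W) {a b : ℤ} {f g : Pol k 2}
    (hf : f ∈ W a) (hf0 : f ≠ 0) (hfg : f * g ∈ W b) : g ∈ W (b - a) := by
  classical
  refine mem_of_cmp h (fun d hd => ?_)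
  have h1 := cmp_mul_of_mem h hf g d
  rw [mul_comm g f, cmp_of_mem h hfg, Finsupp.single_apply, if_neg] at h1
  · rcases mul_eq_zero.1 h1.symm with h2 | h2
    · exact h2
    · exact absurd h2 hf0
  · intro h3
    apply hd
    rw [h3]
    ring

lemma br_pow_mul (f p : Pol k 2) (h : br f p = 0) (n : ℕ) (E : Pol k 2) :
    br f (p ^ n * E) = p ^ n * br f E := by
  rw [br_mul, br_pow, h]
  ring

end hom

theorem pf_EEE (hCHR : T_CHR) : T_EEE := by
  intro k _ _ _ W H y wy p q S α β L _ _ Θ v w m n c hy hm hα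
  have hgr : Gr W := hy.toGr
  have hw : 0 < w := hm.ch.wp
  have hmp : 0 < m := hm.ch.mp
  have hβ : β = m * w := hm.ch.wf
  have hpp : Prime p := hm.ch.pg
  have hp0 : p ≠ 0 := hpp.ne_zero
  have hpq : br p q = 0 := hm.ch.gf
  have hqp : br q p = 0 := by rw [br_anti, hpq, neg_zero]
  have hpS : br p S = 0 := hm.pS
  have hqS : br q S = p ^ w := by
    have := hm.qS
    rwa [pow_zero, mul_one] at this
  have hpW : p ∈ W α := hm.ch.hg
  have hqW : q ∈ W β := hm.ch.hf
  have v0 : v 0 ≠ 0 := hm.ch.ind.ne_zero 0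
  have hc0 : c ≠ 0 := hm.c0
  have hS' : S ∈ W ((n : ℤ) * w) := by
    have h1 := hm.hS
    have h2 : (w : ℤ) * α + ((0 : ℕ) : ℤ) * β - β = (n : ℤ) * w := by
      rw [hm.wS]; push_cast; ring
    rwa [h2] at h1
  have hΘC : ∀ a : k, Θ (C a) = algebraMap k L a := fun a => Θ.commutes a
  have hmC : ((m : ℕ) : Pol k 2) ≠ 0 := by
    exact_mod_cast hmp.ne'
  have hS0 : S ≠ 0 := by
    intro h0
    have h1 := hm.tS
    rw [h0, map_zero] at h1
    rcases mul_eq_zero.1 h1.symm with h2 | h2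
    · exact hc0 ((map_eq_zero _).1 h2)
    · exact pow_ne_zero n v0 h2
  set Y : Pol k 2 := S ^ m - C (c ^ m) * q ^ n with hY
  have hYW : Y ∈ W ((m : ℤ) * (n * w)) := by
    have h1 := pow_mem_gr hgr hS' m
    rw [nsmul_eq_mul] at h1
    have h2 := pow_mem_gr hgr hqW n
    rw [nsmul_eq_mul, hβ] at h2
    have h3 : (n : ℤ) * (m * w) = m * (n * w) := by ring
    rw [h3] at h2
    rw [hY]
    refine (W _).sub_mem h1 ?_
    rw [← smul_eq_C_mul]
    exact (W _).smul_mem _ h2
  have hΘY : Θ Y = 0 := by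
    rw [hY, map_sub, map_pow Θ S m, hm.tS, map_mul, hΘC, map_pow Θ q n, hm.ch.tf,
      map_pow (algebraMap k L) c m]
    ring
  have hpY : p ∣ Y := (hm.ch.ker Y).1 hΘY
  have hqY : br q Y = (m : Pol k 2) * S ^ (m - 1) * p ^ w := by
    rw [hY, br_sub, br_pow, hqS, br_mul, br_C, br_pow, br_self]
    ring
  have hpYb : br p Y = 0 := by
    rw [hY, br_sub, br_pow, hpS, br_mul, br_C, br_pow, hpq]
    ring
  have hY0 : Y ≠ 0 := by
    intro h0
    rw [h0, br_zero] at hqY
    exact mul_ne_zero (mul_ne_zero hmC (pow_ne_zero _ hS0)) (pow_ne_zero _ hp0) hqY.symm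
  have hcop : IsCoprime (w : ℤ) α := by
    have h1 := hm.cop
    rw [hβ] at h1
    exact (IsCoprime.of_mul_right_right h1).symm
  obtain ⟨E', hE', hnd⟩ :=
    (FiniteMultiplicity.of_prime_left hpp hY0).exists_eq_pow_mul_and_not_dvd
  set i : ℕ := multiplicity p Y with hi
  have hi0 : 0 < i := by
    rcases Nat.eq_zero_or_pos i with h | h
    · rw [h, pow_zero, one_mul] at hE'
      exact absurd (hE' ▸ hpY) hnd
    · exact h
  have hwi : w ≤ i := by
    by_contra hlt
    push Not at hlt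
    have a1 : p ^ i * br q E' = p ^ i * ((m : Pol k 2) * S ^ (m - 1) * p ^ (w - i)) := by
      rw [← br_pow_mul q p hqp i E', ← hE', hqY]
      have : p ^ w = p ^ i * p ^ (w - i) := by rw [← pow_add]; congr 1; omega
      rw [this]; ring
    have a2 := mul_left_cancel₀ (pow_ne_zero i hp0) a1
    have a3 : p ∣ br q E' := by
      rw [a2]
      exact Dvd.dvd.mul_left (dvd_pow_self p (by omega)) _
    have a4 : p ^ i * br p E' = p ^ i * 0 := by
      rw [← br_pow_mul p p (br_self p) i E', ← hE', hpYb, mul_zero]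
    have a5 := mul_left_cancel₀ (pow_ne_zero i hp0) a4
    have hpi : p ^ i ∈ W ((i : ℤ) * α) := by
      have h1 := pow_mem_gr hgr hpW i
      rwa [nsmul_eq_mul] at h1
    have hEW := hom_of_mul hgr hpi (pow_ne_zero i hp0) (hE' ▸ hYW)
    obtain ⟨_, j, _, _, hj⟩ := hCHR k W H p q α β L Θ v w m hm.ch _ E' hEW
      (by rw [a5]; exact dvd_zero p) a3 hnd
    have hdvd : (w : ℤ) ∣ (i : ℤ) * α := by
      refine ⟨(m : ℤ) * n - j, ?_⟩
      have : (i : ℤ) * α = m * (n * w) - j * w := by linarith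
      rw [this]; ring
    have hdi : (w : ℤ) ∣ (i : ℤ) := hcop.dvd_of_dvd_mul_right hdvd
    have hdi2 : w ∣ i := by exact_mod_cast hdi
    exact absurd (Nat.le_of_dvd hi0 hdi2) (by omega)
  obtain ⟨E, hE⟩ : ∃ E, Y = p ^ w * E :=
    ⟨p ^ (i - w) * E', by
      rw [← mul_assoc, ← pow_add, show w + (i - w) = i from by omega, ← hE']⟩
  have b1 : br q E = (m : Pol k 2) * S ^ (m - 1) := by
    have h1 : p ^ w * br q E = p ^ w * ((m : Pol k 2) * S ^ (m - 1)) := by
      rw [← br_pow_mul q p hqp w E, ← hE, hqY]; ring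
    exact mul_left_cancel₀ (pow_ne_zero w hp0) h1
  have b2 : br p E = 0 := by
    have h1 : p ^ w * br p E = p ^ w * 0 := by
      rw [← br_pow_mul p p (br_self p) w E, ← hE, hpYb, mul_zero]
    exact mul_left_cancel₀ (pow_ne_zero w hp0) h1
  have hm2 : 2 ≤ m := by
    rcases Nat.lt_or_ge m 2 with h | h
    · have : m = 1 := by omega
      exact absurd (this ▸ one_dvd n) hm.nm
    · exact h
  have hlt := hm.lt
  have hjm : m ≤ (m - 1) * n := by
    obtain ⟨m', rfl⟩ := Nat.exists_eq_add_of_le hm2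
    obtain ⟨n', rfl⟩ := Nat.exists_eq_add_of_lt hlt
    have e1 : 2 + m' - 1 = m' + 1 := by omega
    rw [e1]
    nlinarith [Nat.zero_le (m' * m'), Nat.zero_le (m' * n')]
  obtain ⟨j, hj⟩ : ∃ j : ℕ, j + m = (m - 1) * n := ⟨(m - 1) * n - m, by omega⟩
  have hjZ : (j : ℤ) + m = (m - 1) * n := by
    have h1 : ((j + m : ℕ) : ℤ) = (((m - 1) * n : ℕ) : ℤ) := by rw [hj]
    rw [Nat.cast_add, Nat.cast_mul, Nat.cast_sub (by omega)] at h1
    exact_mod_cast h1
  have hEW : E ∈ W ((w : ℤ) * j) := by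
    have hpw : p ^ w ∈ W ((w : ℤ) * α) := by
      have h1 := pow_mem_gr hgr hpW w
      rwa [nsmul_eq_mul] at h1
    have h2 := hom_of_mul hgr hpw (pow_ne_zero w hp0) (hE ▸ hYW)
    have h3 : (m : ℤ) * (n * w) - w * α = w * j := by
      have h4 : (j : ℤ) = (m - 1) * n - m := by linarith
      rw [h4, hα]; ring
    rwa [h3] at h2
  obtain ⟨N, P, hP1, hP2⟩ := hm.ch.img _ E hEW
  have c1 := hm.ch.dg E N P hP1
  rw [b2, map_zero, zero_mul] at c1
  have c2 : pderiv 2 P = 0 := by
    apply hm.ch.ind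
    rw [map_zero]
    exact c1.symm
  have c3 := hm.ch.df E N P hP1
  rw [b1, map_mul, map_pow, map_natCast, hm.tS] at c3
  have hwk : (w : k) ≠ 0 := by exact_mod_cast hw.ne'
  have hmk : (m : k) ≠ 0 := by exact_mod_cast hmp.ne'
  have c4 : pderiv 1 P = C (c ^ (m - 1) / (w : k)) * X 0 ^ (j + N) := by
    apply hm.ch.ind
    rw [map_mul, map_pow, aeval_X, aeval_C]
    have hmw : algebraMap k L ((m : k) * w) * v 0 ^ m ≠ 0 := by
      refine mul_ne_zero ?_ (pow_ne_zero _ v0)
      rw [Ne, map_eq_zero]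
      exact mul_ne_zero hmk hwk
    apply mul_left_cancel₀ hmw
    have hβk : ((β : ℤ) : k) = (m : k) * w := by rw [hβ]; push_cast; rfl
    rw [hβk] at c3
    rw [← c3]
    have d1 : algebraMap k L ((m : k) * w) * v 0 ^ m *
        (algebraMap k L (c ^ (m - 1) / (w : k)) * v 0 ^ (j + N)) =
        algebraMap k L ((m : k) * w * (c ^ (m - 1) / (w : k))) * v 0 ^ (j + m + N) := by
      rw [map_mul _ ((m : k) * w)]
      ring
    rw [d1, hj]
    have d2 : (m : k) * w * (c ^ (m - 1) / (w : k)) = m * c ^ (m - 1) := by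
      field_simp
    rw [d2, map_mul, map_natCast, map_pow]
    ring
  have hP3 : IsWeightedHomogeneous ![(w : ℤ), 0, -α] P ((w : ℤ) * ((j + N : ℕ) : ℤ)) := by
    have h1 : (w : ℤ) * ((j + N : ℕ) : ℤ) = w * j + N * w := by push_cast; ring
    rw [h1]
    exact hP2
  obtain ⟨κ, hκ⟩ := core_poly P (c ^ (m - 1) / (w : k)) (j + N) w α hw c2 c4 hP3
  refine ⟨E, κ, j, hj, hEW, hE, ?_⟩
  have hN : v 0 ^ N ≠ 0 := pow_ne_zero _ v0
  apply mul_right_cancel₀ hN
  rw [hP1, hκ]
  simp only [map_add, map_mul, map_pow, aeval_X, aeval_C]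
  ring

end Pool.Agent.H51.SYA
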